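import Pool.Agent.Helper27.TRB.Goals2
import Pool.Agent.Helper10.HB.MAINH

/-! # TRB: the main theorem of HB from the data on the étale relation -/

open Complex Metric Set Filter Topology MeasureTheory
open scoped ContDiff ComplexConjugate ComplexOrder Manifold Matrix

namespace Pool.Agent.Helper10.TRB

open Pool.Agent.Helper95.Lin Pool.Agent.Helper16.Abund Pool.Agent.Helper92.Orb
  Pool.Agent.Helper10.SP Pool.Agent.Helper95.RK Pool.Agent.Helper57.HS
  Pool.Agent.Helper15.HS Pool.Agent.Helper10.HS Pool.Agent.Helper15.GS Pool.Agent.Helper57.RBC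
  Pool.Agent.Helper10.RBC Pool.Agent.Helper15.RK Pool.Agent.Helper10.RK Pool.Agent.Helper15.RBC
  Pool.Agent.Helper45.RBC Pool.Agent.Helper82.HB Pool.Agent.Helper45.HB
open Pool.Agent.Helper10.HB (proj_full crv_congr)
open Pool.Agent.Helper27.TRB (S_MAINP)

universe u v

theorem mainp (hHOUT : S_HOUT.{u})
    (hPUSHQ : S_PUSHQ.{u, v}) (hPUSHV : S_PUSHV.{u, v}) (hRKM : S_RKM.{u, v}) (hGAL : S_GAL)
    (hLMF : S_LMF) (hDETI : S_DETI.{u}) (hFZ : S_FOLZ.{u, v}) (hFLD : S_FLD.{u, v})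
    (hFLF : S_FLF.{u, v}) (hFLTM : S_FLTM.{u, v}) (hFR : S_FRONT.{u, v})
    (hM : S_MAINRK.{u, v}) : S_MAINP.{u, v} := by
  intro n m G M _ _ _ _ _ _ _ om hn hD T E hE hC H σ h ψ hHD
  obtain ⟨k, Q, PP, hk, hQ, hP⟩ := hHOUT hn T _ _ σ h _ hHD
  obtain ⟨q, hqH, hqK, hqi, hqE⟩ := hPUSHQ hD T E hE hC Q hQ
  have hTo : IsOpen T := hQ.et.isOpen
  have hcrv : ∀ x ∈ T, ∀ i j k l, crv (pm n q E) x i j k l = crv Q x i j k l := by
    intro x hx i j k l
    refine crv_congr ?_ i j k l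
    filter_upwards [hTo.mem_nhds hx] with y hy
    exact hqE y hy
  rcases Nat.lt_or_eq_of_le hk with hlt | rfl
  · obtain ⟨v, hv, hvinv, hvE, hrank⟩ := hPUSHV hD T E hE hC Q hQ
    have hld : ContDiffOn ℝ ∞ (ld Q) T := by
      obtain ⟨d1, d2, -⟩ := hDETI T _ Q hQ
      exact d2.log fun x hx => (d1 x hx).2.1.ne'
    have hlev : ∀ x ∈ T, ∀ e, ((lev (ld Q) x e : ℝ) : ℂ) = hermi (Q x - PP x * Q x) e e := by
      intro x hx e
      have hL : LM (ld Q) x = Q x - PP x * Q x := (hP x hx).1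
      rw [(hLMF T hTo (ld Q) hld).2.2.1 x hx e, hL]
    have hcor : CorankK k (ld Q) T := by
      intro x hx
      obtain ⟨-, p1, p2, p3, -⟩ := hP x hx
      have hQx := hQ.posDef x hx
      have hu : IsUnit (Q x).det := (isUnit_iff_ne_zero.2 hQx.det_pos.ne')
      have e1 : PP x * Q x * (Q x)⁻¹ = PP x := by
        rw [Matrix.mul_assoc, Matrix.mul_nonsing_inv _ hu, Matrix.mul_one]
      obtain ⟨hpsd, V, hV1, hV2⟩ := (hGAL k (Q x) (Q x) (PP x) hQx hQx p1 p2 p3).2 (by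
        rw [e1, ← Matrix.mul_assoc, p1, e1, p3]
        simp
        ring)
      refine ⟨fun e => ?_, V, hV1, fun e => ?_⟩
      · have h1 := congrArg Complex.re (hlev x hx e)
        rw [Complex.ofReal_re] at h1
        rw [h1]
        exact hermi_re_nonneg hpsd e
      · rw [← hV2 e, ← hlev x hx e]
        exact Complex.ofReal_eq_zero.symm
    have hr := hrank k hcor
    have hneg : GNeg n M q v := hRKM hD hqH hqi T E hE hC v hv hvinv Q PP hQ.posDef hld hvE
      (fun x hx => by rw [hqE x hx]; exact (hP x hx).1) (fun x hx => by rw [hqE x hx])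
      (fun x hx => (hP x hx).2.1) (fun x hx => by rw [hqE x hx]; exact (hP x hx).2.2.1)
      (fun x hx i j l m => by
        simp only [hcrv x hx]
        exact (hP x hx).2.2.2.2 i j l m)
    obtain ⟨b, rfl⟩ : ∃ b, n = b + k := ⟨n - k, by omega⟩
    have hDK : DataK b k G M om v := ⟨hD.act, hD.proper, hD.kah, hD.inv, hv, hvinv, hr⟩
    rcases Nat.eq_zero_or_pos k with hk0 | hk0
    · subst hk0
      exact hM (by omega) hDK (hFZ hDK)
    · exact hM (by omega) hDK (hFR hk0 hDK ⟨hqH, hqi, Or.inl hneg⟩)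
  · have hD' : DataH k G M q := ⟨hD.act, hD.proper, hqK, hqi⟩
    have hflat : ∀ x ∈ T, ∀ i j p l, crv (pm k q E) x i j p l = 0 := by
      intro x hx i j p l
      rw [hcrv x hx]
      obtain ⟨-, p1, p2, p3, p4⟩ := hP x hx
      have h1 := proj_full (PP x) p1 p3
      have h2 := p4 i j p l
      rw [h1] at h2
      simpa [Matrix.one_apply] using h2
    obtain ⟨b, rfl⟩ : ∃ b, k = 0 + b := ⟨k, (zero_add k).symm⟩
    obtain ⟨v, hDK, hF⟩ := hFLD hD' (hFLTM hD' T E hE hC hflat)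
    exact hFLF hDK hF

end Pool.Agent.Helper10.TRB
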