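import Pool.Agent.Helper45.HB.Main
import Pool.Agent.Helper10.TRB.MAINP

/-! # TRB: `S_MAINP` without hypotheses -/

open Complex Metric Set Filter Topology MeasureTheory
open scoped ContDiff ComplexConjugate ComplexOrder Manifold Matrix

namespace Pool.Agent.Helper10.TRB.Asm

open Pool.Agent.Helper95.Lin Pool.Agent.Helper16.Abund Pool.Agent.Helper92.Orb
  Pool.Agent.Helper10.SP Pool.Agent.Helper95.RK Pool.Agent.Helper57.HS
  Pool.Agent.Helper15.HS Pool.Agent.Helper10.HS Pool.Agent.Helper15.RK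
  Pool.Agent.Helper10.SP.Asm Pool.Agent.Helper15.HS.Asm Pool.Agent.Helper15.GS
  Pool.Agent.Helper15.GS.Asm Pool.Agent.Helper57.RBC Pool.Agent.Helper15.RBC
  Pool.Agent.Helper10.RBC Pool.Agent.Helper45.RBC Pool.Agent.Helper57.RBC.Asm
  Pool.Agent.Helper10.RK.Asm Pool.Agent.Helper45.RBC.Asm Pool.Agent.Helper57.HX
  Pool.Agent.Helper57.HX.Asm Pool.Agent.Helper82.HB Pool.Agent.Helper45.HB
  Pool.Agent.Helper45.HB.Asm
open Pool.Agent.Helper27.TRB (S_MAINP)

universe u v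

theorem t_MAINP : S_MAINP.{u, v} :=
  Pool.Agent.Helper10.TRB.mainp t_HOUT t_PUSHQ t_PUSHV t_RKM t_GAL t_LMF t_DETI
    t_FOLZ t_FLD t_FLF t_FLTM t_FRONT tH_MAINRK

end Pool.Agent.Helper10.TRB.Asm
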